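import Mathlib
import Pool.Agent.H575R3.GRWBase
import Pool.Agent.H575R3.GRWExist
import Pool.Agent.R579.GRWK.Proc

/-!
MP_3173ec_pr, Q1: the edge cover time of the greedy random walk (uniform rule) on `K_n`.

The question asks whether `E[C_E(K_n)] = n.choose 2 + Θ(n)`, for `n` of either parity. It is
answered in the negative: for every even `n`,
`E[C_E(K_n)] ≥ n.choose 2 + (n - 1) / 2 * (H_{n-1} - 1)`.
-/

open MeasureTheory
open scoped ENNReal
open Pool.Agent.H575R3.GRW Pool.Agent.R579.GRWK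

namespace Pool.Agent.Results.MP_3173ec_pr.EvenCliqueOverhead

/-- The expected edge cover time `E[C_E(K_n)]` of the process `X` under the measure `P`. -/
noncomputable def expCover {n : ℕ} {Ω : Type} [MeasurableSpace Ω] (P : Measure Ω)
    (X : ℕ → Ω → Fin n) : ℝ≥0∞ :=
  ∫⁻ ω, coverTime (⊤ : SimpleGraph (Fin n)) (fun t => X t ω) ∂P

/-- `BoundsAt n c C` says that every greedy random walk on `K_n`, on any probability space and
from any start, has `c n ≤ E[C_E(K_n)] - n.choose 2 ≤ C n`. -/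
def BoundsAt (n : ℕ) (c C : ℝ) : Prop :=
  ∀ (o : Fin n) (Ω : Type) (_ : MeasurableSpace Ω) (P : Measure Ω) (X : ℕ → Ω → Fin n),
    IsGRW (⊤ : SimpleGraph (Fin n)) o P X →
      ENNReal.ofReal (n.choose 2 + c * n) ≤ expCover P X ∧
        expCover P X ≤ ENNReal.ofReal (n.choose 2 + C * n)

/-- Q1: there are constants `0 < c ≤ C` and `N` such that
`c n ≤ E[C_E(K_n)] - n.choose 2 ≤ C n` for all `n ≥ N`. -/
def Question : Prop :=
  ∃ c C : ℝ, 0 < c ∧ c ≤ C ∧ ∃ N : ℕ, ∀ n ≥ N, BoundsAt n c C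

/-- The lower bound for every even number of vertices. -/
def EvenLower : Prop :=
  ∀ n : ℕ, Even n → ∀ (o : Fin n) (Ω : Type) (_ : MeasurableSpace Ω) (P : Measure Ω)
    (X : ℕ → Ω → Fin n), IsGRW (⊤ : SimpleGraph (Fin n)) o P X →
      ENNReal.ofReal (n.choose 2 + ((n : ℝ) - 1) / 2 * ((harmonic (n - 1) : ℝ) - 1)) ≤
        expCover P X

/-- The greedy random walk exists on every complete graph with at least two vertices. -/
def GRWExists : Prop :=
  ∀ n : ℕ, 2 ≤ n → ∀ o : Fin n, ∃ (Ω : Type) (_ : MeasurableSpace Ω) (P : Measure Ω)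
    (X : ℕ → Ω → Fin n), IsGRW (⊤ : SimpleGraph (Fin n)) o P X

lemma hs_harmonic (a : ℕ) : hs (a + 1) = (harmonic (a + 1) : ℝ) - 1 := by
  induction a with
  | zero =>
    rw [hs_one]
    simp [harmonic]
  | succ a ih =>
    rw [hs_succ (by omega), ih, harmonic_succ (a + 1)]
    push_cast
    ring

theorem evenLower : EvenLower := by
  intro n hn o Ω _ P X h
  have hcard : Fintype.card (Fin n) = n := Fintype.card_fin n
  have hmain := main (V := Fin n) (by rw [hcard]; exact hn) h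
  rw [hcard] at hmain
  have hpos : 0 < n := by
    have := o.2
    omega
  have h2 : 2 ≤ n := by
    rw [Nat.even_iff] at hn
    omega
  have hh : hs (n - 1) = (harmonic (n - 1) : ℝ) - 1 := by
    obtain ⟨m, rfl⟩ : ∃ m, n = m + 2 := ⟨n - 2, by omega⟩
    exact hs_harmonic m
  rw [hh] at hmain
  exact hmain

theorem grwExists : GRWExists := by
  intro n hn o
  have hpos : ∀ v : Fin n, ((⊤ : SimpleGraph (Fin n)).neighborFinset v).Nonempty := by
    intro v
    have : Nontrivial (Fin n) := Fin.nontrivial_iff_two_le.mpr hn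
    obtain ⟨w, hw⟩ := exists_ne v
    refine ⟨w, ?_⟩
    simp only [SimpleGraph.mem_neighborFinset, SimpleGraph.top_adj]
    exact hw.symm
  obtain ⟨mS, P, h⟩ := exists_isGRW (⊤ : SimpleGraph (Fin n)) hpos o
  exact ⟨ℕ → Fin n, mS, P, fun t ω => ω t, h⟩

theorem not_question : ¬ Question := by
  rintro ⟨c, C, hc, hcC, N, hN⟩
  have hC : 0 < C := lt_of_lt_of_le hc hcC
  set n := 2 * (N + ⌈Real.exp (4 * C + 2)⌉₊ + 1) with hn
  have hn2 : 2 ≤ n := by omega
  have hev : Even n := even_two_mul _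
  have hnN : N ≤ n := by omega
  have o : Fin n := ⟨0, by omega⟩
  obtain ⟨Ω, mΩ, P, X, hX⟩ := grwExists n hn2 o
  have hup := (hN n hnN o Ω mΩ P X hX).2
  have hlow := evenLower n hev o Ω mΩ P X hX
  have hle := hlow.trans hup
  have hexp : Real.exp (4 * C + 2) ≤ n := by
    refine (Nat.le_ceil _).trans ?_
    exact_mod_cast (by omega : ⌈Real.exp (4 * C + 2)⌉₊ ≤ n)
  have hharm : 4 * C + 2 ≤ (harmonic (n - 1) : ℝ) := by
    have h1 := log_add_one_le_harmonic (n - 1)
    have h2 : (n - 1 : ℕ) + 1 = n := by omega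
    rw [h2] at h1
    refine le_trans ?_ h1
    rw [← Real.log_exp (4 * C + 2)]
    exact Real.log_le_log (Real.exp_pos _) hexp
  have hnR : (2 : ℝ) ≤ n := by exact_mod_cast hn2
  have hchoose : (0 : ℝ) ≤ (n.choose 2 : ℕ) := Nat.cast_nonneg _
  have hR : (0 : ℝ) < (n.choose 2 : ℕ) + C * n := by
    have : 0 < C * n := by positivity
    linarith
  have hcmp : ((n.choose 2 : ℕ) : ℝ) + C * n <
      (n.choose 2 : ℕ) + ((n : ℝ) - 1) / 2 * ((harmonic (n - 1) : ℝ) - 1) := by
    have h3 : ((n : ℝ) - 1) / 2 * (4 * C + 1) ≤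
        ((n : ℝ) - 1) / 2 * ((harmonic (n - 1) : ℝ) - 1) :=
      mul_le_mul_of_nonneg_left (by linarith) (by linarith)
    nlinarith [mul_pos hC (by linarith : (0 : ℝ) < n)]
  rw [ENNReal.ofReal_le_ofReal_iff hR.le] at hle
  linarith

theorem result : EvenLower ∧ GRWExists ∧ ¬ Question :=
  ⟨evenLower, grwExists, not_question⟩

end Pool.Agent.Results.MP_3173ec_pr.EvenCliqueOverhead
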